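import Mathlib

namespace Pool.Agent.Results.MP_cd4dc1_an.Both

open Filter Topology Set

/-- Smoothness: every unit vector has exactly one norming functional. -/
def Smooth (X : Type*) [NormedAddCommGroup X] [NormedSpace ℂ X] : Prop :=
  ∀ x : X, ‖x‖ = 1 → ∃! f : StrongDual ℂ X, ‖f‖ = 1 ∧ f x = 1

variable {X : Type*} [NormedAddCommGroup X] [NormedSpace ℂ X]

/-- `J` is the duality map. -/
def IsDualityMap (J : X → StrongDual ℂ X) : Prop :=
  ∀ x, ‖J x‖ = ‖x‖ ∧ J x x = (‖x‖ : ℂ) ^ 2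

/-- Self-adjointness with respect to `J`. -/
def SelfAdj (J : X → StrongDual ℂ X) (T : X →L[ℂ] X) : Prop :=
  ∀ x y, J (T x) y = J x (T y)

/-- Strong normality. -/
def StronglyNormal (J : X → StrongDual ℂ X) (T : X →L[ℂ] X) : Prop :=
  ∃ S : X →L[ℂ] X, SelfAdj J S ∧ T = S ^ 2

/-- Minimum modulus. -/
noncomputable def minMod (T : X →L[ℂ] X) : ℝ := ⨅ x : Metric.sphere (0 : X) 1, ‖T x‖

variable {J : X → StrongDual ℂ X}

lemma uniq (hX : Smooth X) (hJ : IsDualityMap J) (x : X) (f : StrongDual ℂ X)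
    (h1 : ‖f‖ ≤ ‖x‖) (h2 : f x = (‖x‖ : ℂ) ^ 2) : f = J x := by
  by_cases hx : x = 0
  · subst hx
    have := (hJ 0).1
    rw [norm_zero] at h1 this
    rw [norm_le_zero_iff.1 h1, norm_eq_zero.1 this]
  have hx' : (‖x‖ : ℂ) ≠ 0 := by simpa using hx
  have hp : 0 < ‖x‖ := norm_pos_iff.2 hx
  have hu : ‖(‖x‖ : ℂ)⁻¹ • x‖ = 1 := by simp [norm_smul, hp.ne']
  have key : ∀ g : StrongDual ℂ X, ‖g‖ ≤ ‖x‖ → g x = (‖x‖ : ℂ) ^ 2 →
      ‖(‖x‖ : ℂ)⁻¹ • g‖ = 1 ∧ ((‖x‖ : ℂ)⁻¹ • g) ((‖x‖ : ℂ)⁻¹ • x) = 1 := by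
    intro g g1 g2
    have e : ((‖x‖ : ℂ)⁻¹ • g) ((‖x‖ : ℂ)⁻¹ • x) = 1 := by
      simp only [ContinuousLinearMap.smul_apply, map_smul, g2, smul_eq_mul]; field_simp
    refine ⟨le_antisymm ?_ ?_, e⟩
    · rw [norm_smul, norm_inv, Complex.norm_real, norm_norm, inv_mul_le_iff₀ hp]; linarith
    · have := ((‖x‖ : ℂ)⁻¹ • g).le_opNorm ((‖x‖ : ℂ)⁻¹ • x)
      rwa [e, hu, norm_one, mul_one] at this
  have := (hX _ hu).unique (key f h1 h2) (key _ (hJ x).1.le (hJ x).2)
  exact smul_right_injective _ (inv_ne_zero hx') this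

lemma Jle (hJ : IsDualityMap J) (x y : X) : ‖J x y‖ ≤ ‖x‖ * ‖y‖ := by
  simpa [(hJ x).1] using (J x).le_opNorm y

lemma Jre (hJ : IsDualityMap J) (x : X) : (J x x).re = ‖x‖ ^ 2 := by
  rw [(hJ x).2, ← Complex.ofReal_pow, Complex.ofReal_re]

lemma Jsmul (hX : Smooth X) (hJ : IsDualityMap J) (c : ℝ) (x : X) : J (c • x) = c • J x := by
  refine (uniq hX hJ _ _ ?_ ?_).symm
  · rw [norm_smul, norm_smul, (hJ x).1]
  · rw [ContinuousLinearMap.smul_apply, (J x).map_smul_of_tower, (hJ x).2, norm_smul, smul_smul,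
      Complex.real_smul]
    norm_cast
    rw [mul_pow, Real.norm_eq_abs, sq_abs, sq c]

lemma cont1 (hX : Smooth X) (hJ : IsDualityMap J) (y : X) : Continuous fun x => J x y := by
  refine continuous_iff_continuousAt.2 fun x0 => tendsto_iff_ultrafilter _ _ _ |>.2 fun U hU => ?_
  have hn : Tendsto (fun x : X => ‖x‖) U (𝓝 ‖x0‖) := continuous_norm.continuousAt.mono_left hU
  obtain ⟨f, -, hf⟩ := (WeakDual.isCompact_closedBall (𝕜 := ℂ) (0 : StrongDual ℂ X)
    (‖x0‖ + 1)).ultrafilter_le_nhds (U.map fun x => StrongDual.toWeakDual (J x)) (by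
      rw [Ultrafilter.coe_map, le_principal_iff, mem_map]
      filter_upwards [hn.eventually (gt_mem_nhds (lt_add_one ‖x0‖))] with x hx
      simpa [(hJ x).1] using hx.le)
  have ht : ∀ z, Tendsto (fun x => J x z) U (𝓝 (f z)) := fun z =>
    ((WeakDual.eval_continuous z).tendsto f).comp hf
  have : WeakDual.toStrongDual f = J x0 := by
    refine uniq hX hJ _ _ (ContinuousLinearMap.opNorm_le_bound _ (norm_nonneg _) fun z => ?_) ?_
    · exact le_of_tendsto_of_tendsto' (ht z).norm (hn.mul_const ‖z‖) fun x => Jle hJ x z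
    · refine tendsto_nhds_unique (ht x0) ?_
      have h1 : Tendsto (fun x => J x (x - x0)) U (𝓝 0) := by
        refine squeeze_zero_norm (fun x => Jle hJ x _) ?_
        simpa using hn.mul (tendsto_iff_norm_sub_tendsto_zero.1 (tendsto_id.mono_left hU))
      have h2 := (((Complex.continuous_ofReal.tendsto _).comp hn).pow 2).sub h1
      rw [sub_zero] at h2
      refine h2.congr fun x => ?_
      simp [(hJ x).2]
  simp only [← this]
  exact ht y

lemma cont2 (hX : Smooth X) (hJ : IsDualityMap J) : Continuous fun p : X × X => J p.1 p.2 := by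
  refine continuous_iff_continuousAt.2 fun p0 => ?_
  have h1 : Tendsto (fun p : X × X => J p.1 (p.2 - p0.2)) (𝓝 p0) (𝓝 0) := by
    refine squeeze_zero_norm (fun p => Jle hJ _ _) ?_
    have : Continuous fun p : X × X => ‖p.1‖ * ‖p.2 - p0.2‖ := by fun_prop
    simpa using this.tendsto p0
  have h2 := (((cont1 hX hJ p0.2).comp continuous_fst).tendsto p0).add h1
  rw [add_zero] at h2
  exact h2.congr fun p => by simp

lemma cont3 (hX : Smooth X) (hJ : IsDualityMap J) {α : Type*} [TopologicalSpace α]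
    {f g : α → X} (hf : Continuous f) (hg : Continuous g) : Continuous fun a => (J (f a) (g a)).re :=
  Complex.continuous_re.comp ((cont2 hX hJ).comp (hf.prodMk hg))

lemma supp (hJ : IsDualityMap J) (u w : X) : 2 * (J u (w - u)).re ≤ ‖w‖ ^ 2 - ‖u‖ ^ 2 := by
  have := (Complex.re_le_norm _).trans (Jle hJ u w)
  rw [map_sub, Complex.sub_re, Jre hJ]
  nlinarith [sq_nonneg (‖u‖ - ‖w‖)]

lemma der1 (hX : Smooth X) (hJ : IsDualityMap J) (u v : X) (t : ℝ) :
    HasDerivAt (fun s : ℝ => ‖u + s • v‖ ^ 2) (2 * (J (u + t • v) v).re) t := by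
  rw [hasDerivAt_iff_isLittleO, Asymptotics.isLittleO_iff]
  intro c hc
  have hc' : Continuous fun s : ℝ => (J (u + s • v) v).re := cont3 hX hJ (by fun_prop) (by fun_prop)
  filter_upwards [Metric.tendsto_nhds.1 (hc'.tendsto t) (c / 2) (half_pos hc)] with s hs
  have a := supp hJ (u + t • v) (u + s • v)
  have b := supp hJ (u + s • v) (u + t • v)
  rw [add_sub_add_left_eq_sub, ← sub_smul, ContinuousLinearMap.map_smul_of_tower,
    Complex.smul_re, smul_eq_mul] at a b
  rw [Real.dist_eq] at hs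
  have d : |(s - t) * ((J (u + s • v) v).re - (J (u + t • v) v).re)| ≤ |s - t| * (c / 2) := by
    rw [abs_mul]; gcongr
  rw [Real.norm_eq_abs, Real.norm_eq_abs, smul_eq_mul, abs_le]
  have := abs_le.1 d
  have := abs_nonneg (s - t)
  constructor <;> nlinarith

def Ex (J : X → StrongDual ℂ X) (A : X →L[ℂ] X) : Prop :=
  ∀ (u v : X) (s : ℝ), (J (u + s • v) (A (u + s • v))).re - (J u (A u)).re =
    ∫ t in (0 : ℝ)..s, 2 * (J (u + t • v) (A v)).re

lemma Ex.der (hX : Smooth X) (hJ : IsDualityMap J) {A : X →L[ℂ] X} (h : Ex J A) (u v : X) (t : ℝ) :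
    HasDerivAt (fun s : ℝ => (J (u + s • v) (A (u + s • v))).re) (2 * (J (u + t • v) (A v)).re) t := by
  have hc : Continuous fun s : ℝ => 2 * (J (u + s • v) (A v)).re :=
    continuous_const.mul (cont3 hX hJ (by fun_prop) (by fun_prop))
  have := ((hc.integral_hasStrictDerivAt 0 t).hasDerivAt).add_const (J u (A u)).re
  refine this.congr_of_eventuallyEq (Eventually.of_forall fun s => ?_)
  simp only
  rw [← h]; ring

lemma SelfAdj.pow {T : X →L[ℂ] X} (h : SelfAdj J T) (k : ℕ) : SelfAdj J (T ^ k) := by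
  induction k with
  | zero => intro x y; simp
  | succ k ih =>
    intro x y
    rw [pow_succ' T k, ContinuousLinearMap.mul_apply, h, ih, ← ContinuousLinearMap.mul_apply,
      ← pow_succ, pow_succ']

lemma ex_sq (hX : Smooth X) (hJ : IsDualityMap J) {T : X →L[ℂ] X} (h : SelfAdj J T) :
    Ex J (T * T) := by
  intro u v s
  have h' : ∀ x y, J x (T y) = J (T x) y := fun x y => (h x y).symm
  have h2 : ∀ x y, J x ((T * T) y) = J (T x) (T y) := fun x y => h' x (T y)
  simp only [h2, Jre hJ]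
  simp only [map_add, ContinuousLinearMap.map_smul_of_tower]
  rw [intervalIntegral.integral_eq_sub_of_hasDerivAt (fun t _ => der1 hX hJ (T u) (T v) t)
    ((continuous_const.mul (cont3 hX hJ (by fun_prop) (by fun_prop))).intervalIntegrable _ _)]
  simp

lemma ex_elem (hX : Smooth X) (hJ : IsDualityMap J) {T : X →L[ℂ] X} (h : SelfAdj J T)
    (A : X →L[ℂ] X) (hA : A ∈ Algebra.elemental ℝ (T ^ 2)) : Ex J A := by
  have hi : ∀ (A : X →L[ℂ] X) (u v : X) (s : ℝ), IntervalIntegrable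
      (fun t : ℝ => 2 * (J (u + t • v) (A v)).re) MeasureTheory.volume 0 s := fun A u v s =>
    (continuous_const.mul (cont3 hX hJ (by fun_prop) (by fun_prop))).intervalIntegrable _ _
  have hcl : IsClosed {A : X →L[ℂ] X | Ex J A} := by
    simp only [Ex, setOf_forall]
    refine isClosed_iInter fun u => isClosed_iInter fun v => isClosed_iInter fun s =>
      isClosed_eq ((cont3 hX hJ (by fun_prop) (by fun_prop)).sub
        (cont3 hX hJ (by fun_prop) (by fun_prop))) ?_
    apply intervalIntegral.continuous_parametric_intervalIntegral_of_continuous'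
    exact continuous_const.mul (cont3 hX hJ (by fun_prop) (by fun_prop))
  refine closure_minimal (fun B hB => ?_) hcl hA
  have hB' : B ∈ Subalgebra.toSubmodule (Algebra.adjoin ℝ {T ^ 2}) := hB
  rw [Algebra.adjoin_eq_span] at hB'
  clear hB
  induction hB' using Submodule.span_induction with
  | mem x hx =>
    obtain ⟨n, rfl⟩ := Submonoid.mem_closure_singleton.1 hx
    rw [← pow_mul, mul_comm, pow_mul, sq]
    exact ex_sq hX hJ (h.pow n)
  | zero => intro u v s; simp
  | add x y hx hy ix iy =>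
    intro u v s
    have a := ix u v s
    have b := iy u v s
    simp only [ContinuousLinearMap.add_apply, (J _).map_add (x _), Complex.add_re, mul_add]
    rw [intervalIntegral.integral_add (hi x u v s) (hi y u v s)]
    linarith
  | smul c x hx ix =>
    intro u v s
    have a := ix u v s
    simp only [ContinuousLinearMap.smul_apply, (J _).map_smul_of_tower c, Complex.smul_re,
      smul_eq_mul, mul_left_comm 2 c]
    rw [intervalIntegral.integral_const_mul, ← a]; ring

section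
variable {B : Type*} [NormedCommRing B] [NormedAlgebra ℝ B] [CompleteSpace B]

lemma sqrt_ex (A : B) (hA : ‖A‖ ≤ 1) : ∃ R : B, ‖R‖ ≤ 1 ∧ (1 - R) ^ 2 = 1 - A := by
  let b : ℕ → ℝ := fun n => Nat.rec 0 (fun _ r => (1 / 2) * (1 + r ^ 2)) n
  let R : ℕ → B := fun n => Nat.rec 0 (fun _ r => (1 / 2 : ℝ) • (A + r ^ 2)) n
  have bs : ∀ n, b (n + 1) = (1 / 2) * (1 + b n ^ 2) := fun _ => rfl
  have Rs : ∀ n, R (n + 1) = (1 / 2 : ℝ) • (A + R n ^ 2) := fun _ => rfl
  have h1 : ∀ n, ‖R n‖ ≤ b n ∧ b n ≤ 1 := by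
    intro n
    induction n with
    | zero => exact ⟨norm_zero.le, zero_le_one⟩
    | succ n ih =>
      have := norm_nonneg (R n)
      rw [bs, Rs, norm_smul, Real.norm_of_nonneg (by norm_num)]
      have h3 := (norm_add_le A _).trans (add_le_add hA (norm_pow_le' (R n) two_pos))
      constructor <;> nlinarith [ih.1, ih.2]
  have h2 : ∀ n, ‖R (n + 1) - R n‖ ≤ b (n + 1) - b n := by
    intro n
    induction n with
    | zero => simpa [R, b] using (h1 1).1
    | succ n ih =>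
      rw [Rs (n + 1), bs (n + 1)]
      nth_rewrite 2 [Rs n, bs n]
      rw [← smul_sub, norm_smul, Real.norm_of_nonneg (by norm_num), add_sub_add_left_eq_sub,
        sq_sub_sq]
      have := (norm_mul_le _ _).trans (mul_le_mul ((norm_add_le _ _).trans
        (add_le_add (h1 (n + 1)).1 (h1 n).1)) ih (norm_nonneg _)
        (add_nonneg ((norm_nonneg _).trans (h1 (n + 1)).1) ((norm_nonneg _).trans (h1 n).1)))
      linarith
  have h3 : Summable fun n => b (n + 1) - b n :=
    summable_of_sum_range_le (c := 1) (fun n => (norm_nonneg _).trans (h2 n)) fun n => by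
      rw [Finset.sum_range_sub]; simpa [b] using (h1 n).2
  obtain ⟨L, hL⟩ := cauchySeq_tendsto_of_complete (cauchySeq_of_dist_le_of_summable (f := R) _
    (fun n => by rw [dist_comm, dist_eq_norm]; exact h2 n) h3)
  refine ⟨L, le_of_tendsto' hL.norm fun n => (h1 n).1.trans (h1 n).2, ?_⟩
  have h4 : L = (1 / 2 : ℝ) • (A + L ^ 2) :=
    tendsto_nhds_unique (hL.comp (tendsto_add_atTop_nat 1))
      (((hL.pow 2).const_add A).const_smul _)
  have h5 : L + L = A + L ^ 2 := by
    nth_rewrite 1 [h4]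
    nth_rewrite 2 [h4]
    rw [← add_smul]; norm_num
  linear_combination -h5

variable (π : B →ₐ[ℝ] (X →L[ℂ] X))

lemma derQ (hX : Smooth X) (hJ : IsDualityMap J) (hc : Continuous π) (hE : ∀ b, Ex J (π b))
    {C : ℝ → B} {C' : B} {t : ℝ} (hC : HasDerivAt C C' t) (y a : X) :
    HasDerivAt (fun s : ℝ => (J (y + s • a) (π (C s) (y + s • a))).re)
      (2 * (J (y + t • a) (π (C t) a)).re + (J (y + t • a) (π C' (y + t • a))).re) t := by
  have h1 := (hE (C t)).der hX hJ y a t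
  have h2 : HasDerivAt (fun s : ℝ => (J (y + s • a) (π (C s - C t) (y + s • a))).re)
      (J (y + t • a) (π C' (y + t • a))).re t := by
    rw [hasDerivAt_iff_tendsto_slope] at hC ⊢
    have h3 : Continuous fun p : ℝ × B => (J (y + p.1 • a) (π p.2 (y + p.1 • a))).re :=
      cont3 hX hJ (by fun_prop) (by fun_prop)
    refine ((h3.tendsto (t, C')).comp ((tendsto_id.mono_left nhdsWithin_le_nhds).prodMk_nhds
      hC)).congr fun s => ?_
    simp only [slope, Function.comp, id, vsub_eq_sub, sub_self, map_zero, map_smul,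
      ContinuousLinearMap.zero_apply, Complex.zero_re, sub_zero, ContinuousLinearMap.smul_apply,
      (J _).map_smul_of_tower (s - t)⁻¹, Complex.smul_re]
  refine (h1.add h2).congr_of_eventuallyEq (Eventually.of_forall fun s => ?_)
  simp

lemma sa1 (hX : Smooth X) (hJ : IsDualityMap J) (hc : Continuous π) (hE : ∀ b, Ex J (π b))
    (A : B) (hA : ‖A‖ < 1) : SelfAdj J (π (1 - A)) := by
  have hu : ∀ t ∈ Icc (0 : ℝ) 1, IsUnit (1 - t • A) := fun t ht =>
    (Units.oneSub (t • A) (by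
      rw [norm_smul, Real.norm_of_nonneg ht.1]; nlinarith [ht.1, ht.2, norm_nonneg A])).isUnit
  have hr : ∀ t ∈ Icc (0 : ℝ) 1, HasDerivAt (fun s : ℝ => Ring.inverse (1 - s • A))
      (Ring.inverse (1 - t • A) * A * Ring.inverse (1 - t • A)) t := by
    intro t ht
    obtain ⟨u, hu⟩ := hu t ht
    have h1 : HasDerivAt (fun s : ℝ => 1 - s • A) (-A) t := by
      simpa using ((hasDerivAt_id t).smul_const A).const_sub 1
    have h2 := (hasFDerivAt_ringInverse (𝕜 := ℝ) u).comp_hasDerivAt_of_eq t h1 hu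
    rw [← hu, Ring.inverse_unit]
    simpa [Function.comp_def] using h2
  have key : ∀ y, ‖π (1 - A) y‖ ^ 2 = (J y (π ((1 - A) ^ 2) y)).re := by
    intro y
    have hd : ∀ t ∈ Icc (0 : ℝ) 1, HasDerivAt (fun s : ℝ => (J (y + s • -π A y)
        (π ((1 - A) ^ 2 * Ring.inverse (1 - s • A) ^ 2) (y + s • -π A y))).re) 0 t := by
      intro t ht
      have h1 := derQ π hX hJ hc hE (((hr t ht).fun_pow 2).const_mul ((1 - A) ^ 2)) y (-π A y)
      convert h1 using 1
      have e1 : y + t • -π A y = π (1 - t • A) y := by simp [sub_eq_add_neg]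
      have e2 := Ring.inverse_mul_cancel _ (hu t ht)
      set r := Ring.inverse (1 - t • A)
      have e3 : (1 - A) ^ 2 * ((2 : ℕ) * r ^ (2 - 1) * (r * A * r)) * (1 - t • A) =
          (1 - A) ^ 2 * r ^ 2 * A + (1 - A) ^ 2 * r ^ 2 * A := by
        push_cast
        linear_combination (2 * (1 - A) ^ 2 * r ^ 2 * A) * e2
      nth_rewrite 3 [e1]
      rw [← ContinuousLinearMap.mul_apply, ← map_mul, e3, map_neg, ← ContinuousLinearMap.mul_apply,
        ← map_mul, map_add, ContinuousLinearMap.add_apply, map_add, map_neg, Complex.add_re,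
        Complex.neg_re]
      ring
    have := constant_of_has_deriv_right_zero (fun t ht => (hd t ht).continuousAt.continuousWithinAt)
      (fun t ht => (hd t (Ico_subset_Icc_self ht)).hasDerivWithinAt) 1 ⟨zero_le_one, le_rfl⟩
    have e2 := Ring.mul_inverse_cancel _ (hu 1 ⟨zero_le_one, le_rfl⟩)
    simp only [one_smul, zero_smul, sub_zero, add_zero, Ring.inverse_one, one_pow, mul_one] at this e2
    rw [← mul_pow, e2, one_pow, map_one, ContinuousLinearMap.one_apply, Jre hJ] at this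
    rw [← this]
    simp [sub_eq_add_neg]
  have re : ∀ x w, (J (π (1 - A) x) w).re = (J x (π (1 - A) w)).re := by
    intro x w
    have e2 := Ring.mul_inverse_cancel _ (hu 1 ⟨zero_le_one, le_rfl⟩)
    rw [one_smul] at e2
    obtain ⟨b, rfl⟩ : ∃ b, w = π (1 - A) b := ⟨π (Ring.inverse (1 - A)) w, by
      rw [← ContinuousLinearMap.mul_apply, ← map_mul, e2, map_one, ContinuousLinearMap.one_apply]⟩
    have h1 := der1 hX hJ (π (1 - A) x) (π (1 - A) b) 0
    have h2 := (hE ((1 - A) ^ 2)).der hX hJ x b 0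
    simp only [← key] at h2
    simp only [map_add, ContinuousLinearMap.map_smul_of_tower] at h2
    have := h1.unique h2
    simp only [zero_smul, add_zero, sq, map_mul, ContinuousLinearMap.mul_apply] at this
    linarith
  intro x y
  refine Complex.ext (re x y) ?_
  have := re x (Complex.I • y)
  simpa only [map_smul, smul_eq_mul, Complex.I_mul_re, neg_inj] using this

lemma sa2 (hX : Smooth X) (hJ : IsDualityMap J) (hc : Continuous π) (hE : ∀ b, Ex J (π b))
    (A : B) (hA : ‖A‖ ≤ 1) (c : ℝ) : SelfAdj J (π (c • (1 - A))) := by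
  intro x y
  have h1 : J (π (1 - A) x) y = J x (π (1 - A) y) := by
    have hcl : IsClosed {t : ℝ | J (π (1 - t • A) x) y = J x (π (1 - t • A) y)} :=
      isClosed_eq ((cont1 hX hJ y).comp (by fun_prop)) (by fun_prop)
    have : J (π (1 - (1 : ℝ) • A) x) y = J x (π (1 - (1 : ℝ) • A) y) :=
      closure_minimal (s := Ico (0 : ℝ) 1) (fun t ht => sa1 π hX hJ hc hE (t • A) (by
      rw [norm_smul, Real.norm_of_nonneg ht.1]; nlinarith [ht.1, ht.2, norm_nonneg A]) x y) hcl
      (show (1 : ℝ) ∈ _ by rw [closure_Ico zero_ne_one]; exact ⟨zero_le_one, le_rfl⟩)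
    simpa only [one_smul] using this
  rw [map_smul, ContinuousLinearMap.smul_apply, ContinuousLinearMap.smul_apply, Jsmul hX hJ,
    ContinuousLinearMap.smul_apply, h1, ContinuousLinearMap.map_smul_of_tower]

lemma sq_ex (hX : Smooth X) (hJ : IsDualityMap J) (hc : Continuous π) (hE : ∀ b, Ex J (π b))
    (A : B) (c : ℝ) (hA : ‖A‖ ≤ c) : ∃ W : B, SelfAdj J (π W) ∧ c • (1 : B) - A = W ^ 2 := by
  rcases ((norm_nonneg _).trans hA).eq_or_lt with rfl | h0
  · refine ⟨(0 : ℝ) • (1 - 0), sa2 π hX hJ hc hE 0 (by simp) 0, ?_⟩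
    simp [norm_le_zero_iff.1 hA]
  obtain ⟨R, h1, h2⟩ := sqrt_ex (c⁻¹ • A) (by
    rwa [norm_smul, norm_inv, Real.norm_of_nonneg h0.le, inv_mul_le_iff₀ h0, mul_one])
  refine ⟨√c • (1 - R), sa2 π hX hJ hc hE R h1 _, ?_⟩
  rw [smul_pow, h2, Real.sq_sqrt h0.le, smul_sub, smul_smul, mul_inv_cancel₀ h0.ne', one_smul]

lemma fin (hX : Smooth X) (hJ : IsDualityMap J) (hπ : ∀ b, ‖π b‖ = ‖b‖) (hE : ∀ b, Ex J (π b))
    (T : X →L[ℂ] X) (hT : SelfAdj J T) (s : B) (hs : π s = T ^ 2) :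
    StronglyNormal J ((‖T‖ ^ 2 : ℝ) • (1 : X →L[ℂ] X) - T ^ 2) ∧
      StronglyNormal J (T ^ 2 - (minMod T ^ 2 : ℝ) • (1 : X →L[ℂ] X)) := by
  have hc : Continuous π := AddMonoidHomClass.continuous_of_bound π 1 fun b => by simp [hπ]
  obtain ⟨W, hW, hW2⟩ := sq_ex π hX hJ hc hE s (‖T‖ ^ 2) (by
    rw [← hπ, hs]; exact norm_pow_le' T two_pos)
  have e1 : (‖T‖ ^ 2 : ℝ) • (1 : X →L[ℂ] X) - T ^ 2 = π W ^ 2 := by
    rw [← map_pow, ← hW2, map_sub, map_smul, map_one, hs]
  refine ⟨⟨π W, hW, e1⟩, ?_⟩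
  have m0 : 0 ≤ minMod T := Real.iInf_nonneg fun _ => norm_nonneg _
  have hb : BddBelow (range fun x : Metric.sphere (0 : X) 1 => ‖T x‖) :=
    ⟨0, by rintro _ ⟨x, rfl⟩; exact norm_nonneg _⟩
  have m1 : ∀ x, minMod T * ‖x‖ ≤ ‖T x‖ := by
    intro x
    by_cases hx : x = 0
    · simp [hx]
    have := ciInf_le hb ⟨‖x‖⁻¹ • x, by simpa using norm_smul_inv_norm (𝕜 := ℝ) hx⟩
    rwa [ContinuousLinearMap.map_smul_of_tower, norm_smul, norm_inv, norm_norm, ← div_eq_inv_mul,
      le_div_iff₀ (norm_pos_iff.2 hx)] at this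
  have m2 : minMod T ≤ ‖T‖ := by
    rcases isEmpty_or_nonempty (Metric.sphere (0 : X) 1) with h | ⟨⟨x⟩⟩
    · rw [minMod, Real.iInf_of_isEmpty]; exact norm_nonneg _
    · refine (ciInf_le hb x).trans ?_
      simpa [mem_sphere_zero_iff_norm.1 x.2] using T.le_opNorm x
  have m3 : 0 ≤ ‖T‖ ^ 2 - minMod T ^ 2 := by nlinarith
  have hn : ‖W ^ 2‖ ≤ ‖T‖ ^ 2 - minMod T ^ 2 := by
    rw [← hπ, map_pow]
    refine ContinuousLinearMap.opNorm_le_bound _ m3 fun x => ?_
    have a1 : ‖(π W ^ 2) x‖ ^ 2 = (J (π W x) ((π W ^ 2) (π W x))).re := by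
      rw [← Jre hJ, hW.pow 2, hW]
      simp only [← ContinuousLinearMap.mul_apply, ← pow_succ, ← pow_succ', ← pow_add]
    have a2 : (J (π W x) ((π W ^ 2) (π W x))).re = ‖T‖ ^ 2 * ‖π W x‖ ^ 2 - ‖T (π W x)‖ ^ 2 := by
      rw [← e1, ← Jre hJ (T _), hT, ← Jre hJ (π W x), ContinuousLinearMap.sub_apply,
        ContinuousLinearMap.smul_apply, map_sub, ContinuousLinearMap.map_smul_of_tower,
        Complex.sub_re, Complex.smul_re, sq T]
      rfl
    have a3 : ‖π W x‖ ^ 2 ≤ ‖x‖ * ‖(π W ^ 2) x‖ := by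
      rw [← Jre hJ, hW, sq]
      exact (Complex.re_le_norm _).trans (Jle hJ _ _)
    have a4 := pow_le_pow_left₀ (by positivity) (m1 (π W x)) 2
    have a5 := mul_le_mul_of_nonneg_left a3 m3
    rcases (norm_nonneg ((π W ^ 2) x)).eq_or_lt with h0 | h0
    · rw [← h0]; positivity
    refine le_of_mul_le_mul_right ?_ h0
    nlinarith
  obtain ⟨V, hV, hV2⟩ := sq_ex π hX hJ hc hE _ _ hn
  refine ⟨π V, hV, ?_⟩
  rw [← map_pow π V, ← hV2, map_sub, map_smul, map_one, map_pow, ← e1, sub_smul]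
  abel

end

theorem result {X : Type*} [NormedAddCommGroup X] [NormedSpace ℂ X] [CompleteSpace X]
    (hX : Smooth X) (J : X → StrongDual ℂ X) (hJ : IsDualityMap J) (T : X →L[ℂ] X)
    (hT : SelfAdj J T) :
    StronglyNormal J ((‖T‖ ^ 2 : ℝ) • (1 : X →L[ℂ] X) - T ^ 2) ∧
      StronglyNormal J (T ^ 2 - (minMod T ^ 2 : ℝ) • (1 : X →L[ℂ] X)) := by
  letI : NormedCommRing (Algebra.elemental ℝ (T ^ 2)) :=
    { (inferInstance : NormedRing (Algebra.elemental ℝ (T ^ 2))) with mul_comm := mul_comm }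
  exact fin (B := Algebra.elemental ℝ (T ^ 2)) (Algebra.elemental ℝ (T ^ 2)).val hX hJ (fun _ => rfl)
    (fun b => ex_elem hX hJ hT _ b.2) T hT ⟨T ^ 2, Algebra.elemental.self_mem _ _⟩ rfl

end Pool.Agent.Results.MP_cd4dc1_an.Both
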